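import Mathlib
import Pool.Agent.Lib_helper26.SCH.Fin
import Pool.Agent.Lib_helper60.SCH.Lev

/-!
# The character of the skewness argument does not have order `3`
-/

set_option autoImplicit false
set_option linter.unusedSectionVars false

namespace Pool.Agent.SCH

open Finset Pool.Agent.GL Pool.Agent.Lib_helper42.RS Pool.Agent.Lib_helper13.PL

universe u

/-- the real inequality: many Schur triples -/
theorem o3_many {L t x0 x1 x2 N : ℝ} (hL : 0 < L) (ht : 0 < t) (ht1 : t ≤ 0.1457 * L)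
    (h0 : 0 ≤ x0) (h1 : 0 ≤ x1) (h2 : 0 ≤ x2)
    (hs : x0 + x1 + x2 = L + t)
    (hN1 : x0 * (2 * x0 - L) ≤ N) (hN2 : (2 * x1 - L) * t ≤ N) (hN2' : (2 * x2 - L) * t ≤ N)
    (hN3 : (x1 + x2) * (x1 + x2 - L) ≤ N)
    (hQ : 2.43 * L ^ 2 ≤ 9 / 4 * (2 * x0 - x1 - x2) ^ 2 + 3 / 4 * (x1 - x2) ^ 2) :
    0.4 * (L * t) ≤ N ∨ 0.12 * L ^ 2 ≤ N := by
  have hx12 : x1 + x2 = L + t - x0 := by linarith
  by_cases hc : L + t ≤ 3 * x0
  · -- level `0` is large
    right
    have h6 : 0.6 * L ≤ x0 := by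
      by_contra h
      rw [not_le] at h
      have e1 : 2 * x0 - x1 - x2 = 3 * x0 - (L + t) := by linarith
      have e2 : (2 * x0 - x1 - x2) ^ 2 ≤ (0.8 * L) ^ 2 := by
        rw [e1]
        apply pow_le_pow_left₀ (by linarith)
        linarith
      have e3 : (x1 - x2) ^ 2 ≤ (0.764 * L) ^ 2 := by
        apply sq_le_sq'
        · linarith
        · linarith
      nlinarith
    nlinarith
  · left
    rw [not_le] at hc
    -- the general case with `x2 ≤ x1`
    have key : ∀ y1 y2 : ℝ, 0 ≤ y1 → 0 ≤ y2 → y2 ≤ y1 → y1 + y2 = L + t - x0 →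
        (2 * y1 - L) * t ≤ N → (y1 - y2) ^ 2 = (x1 - x2) ^ 2 → 0.4 * (L * t) ≤ N := by
      intro y1 y2 g1 g2 g12 gs gN gd
      by_cases h7 : 0.7 * L ≤ y1
      · nlinarith
      · rw [not_le] at h7
        have e1 : 2 * x0 - x1 - x2 = -(L + t - 3 * x0) := by linarith
        rw [e1, ← gd] at hQ
        have hA : 1.01 * L ≤ L + t - 3 * x0 := by
          by_contra h
          rw [not_le] at h
          have hd0 : 0 ≤ y1 - y2 := by linarith
          have hd : y1 - y2 ≤ 0.4 * L - t + x0 := by linarith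
          rcases le_total x0 t with hx | hx
          · have e2 : (y1 - y2) ^ 2 ≤ (0.4 * L) ^ 2 := pow_le_pow_left₀ hd0 (by linarith) 2
            have e3 : (-(L + t - 3 * x0)) ^ 2 ≤ (1.01 * L) ^ 2 := by
              rw [neg_sq]
              exact pow_le_pow_left₀ (by linarith) h.le 2
            nlinarith
          · have e2 : (y1 - y2) ^ 2 ≤ (0.4 * L + x0) ^ 2 :=
              pow_le_pow_left₀ hd0 (by linarith) 2
            have e3 : (-(L + t - 3 * x0)) ^ 2 ≤ (L - 2 * x0) ^ 2 := by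
              rw [neg_sq]
              exact pow_le_pow_left₀ (by linarith) (by linarith) 2
            have hx0 : x0 ≤ 0.382 * L := by linarith
            nlinarith [mul_nonneg h0 (show 0 ≤ 0.382 * L - x0 by linarith)]
        have hσ : L * ((2 * t + 0.01 * L) / 3) ≤ N := by
          refine le_trans ?_ hN3
          rw [hx12]
          apply mul_le_mul
          · nlinarith
          · linarith
          · positivity
          · linarith
        nlinarith [mul_pos hL ht, mul_pos hL hL]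
    rcases le_total x2 x1 with h | h
    · exact key x1 x2 h1 h2 h hx12 hN2 rfl
    · exact key x2 x1 h2 h1 h (by linarith) hN2' (by ring)

/-- the contradiction -/
theorem o3_contra {L t x0 x1 x2 N F : ℝ} (hL : 0 < L) (ht : 0 < t) (ht1 : t ≤ 0.1457 * L)
    (h0 : 0 ≤ x0) (h1 : 0 ≤ x1) (h2 : 0 ≤ x2)
    (hs : x0 + x1 + x2 = L + t)
    (hN1 : x0 * (2 * x0 - L) ≤ N) (hN2 : (2 * x1 - L) * t ≤ N) (hN2' : (2 * x2 - L) * t ≤ N)
    (hN3 : (x1 + x2) * (x1 + x2 - L) ≤ N)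
    (hQ : 2.43 * L ^ 2 ≤ 9 / 4 * (2 * x0 - x1 - x2) ^ 2 + 3 / 4 * (x1 - x2) ^ 2)
    (hN : 4 * N = (3 * t) ^ 2 - F)
    (hF : (0.02 * L ≤ t ∧ -0.01638 * L ^ 2 ≤ F) ∨ (t ≤ 0.05 * L ∧ -(4 / 7) * (L * t) ≤ F)) :
    False := by
  have hLt := mul_pos hL ht
  have hLL := mul_pos hL hL
  have hm := o3_many hL ht ht1 h0 h1 h2 hs hN1 hN2 hN2' hN3 hQ
  rcases hF with ⟨ha, hb⟩ | ⟨ha, hb⟩
  · have hp : (t - 0.02 * L) * (t - 0.1457 * L) ≤ 0 :=
      mul_nonpos_of_nonneg_of_nonpos (by linarith) (by linarith)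
    rcases hm with h | h
    · nlinarith
    · nlinarith
  · have hp : t * (t - 0.05 * L) ≤ 0 :=
      mul_nonpos_of_nonneg_of_nonpos ht.le (by linarith)
    rcases hm with h | h
    · nlinarith
    · nlinarith

section
variable {G : Type u} [AddCommGroup G] [Fintype G] [DecidableEq G]

lemma o3_schur_diff (A : Finset G) :
    (schur A : ℤ) = ∑ y ∈ A, ((A.filter (fun z => z + y ∈ A)).card : ℤ) := by
  rw [schur_eq_sum]
  refine Finset.sum_congr rfl fun x _ => ?_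
  rw [Finset.card_filter]
  push_cast
  refine Finset.sum_congr rfl fun y _ => ?_
  unfold ind
  rw [add_comm]

lemma o3_schur_sum (A : Finset G) :
    (schur A : ℤ) = ∑ z ∈ A, ((A.filter (fun x => z - x ∈ A)).card : ℤ) := by
  have h1 : ∀ x ∈ A, ∑ y ∈ A, ind A (x + y) = ∑ z ∈ A, ind A (z - x) := by
    intro x _
    have e1 : ∑ y ∈ A, ind A (x + y) = ∑ y : G, ind A y * ind A (x + y) := by
      rw [← Finset.sum_filter_add_sum_filter_not univ (fun y => y ∈ A)]
      have z1 : ∑ y ∈ univ.filter (fun y => ¬ y ∈ A), ind A y * ind A (x + y) = 0 := by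
        refine Finset.sum_eq_zero fun y hy => ?_
        unfold ind
        rw [if_neg (Finset.mem_filter.mp hy).2, zero_mul]
      have z2 : univ.filter (fun y => y ∈ A) = A := by ext y; simp
      rw [z1, add_zero, z2]
      refine Finset.sum_congr rfl fun y hy => ?_
      have : ind A y = 1 := by unfold ind; rw [if_pos hy]
      rw [this, one_mul]
    have e2 : ∑ z ∈ A, ind A (z - x) = ∑ z : G, ind A z * ind A (z - x) := by
      rw [← Finset.sum_filter_add_sum_filter_not univ (fun y => y ∈ A)]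
      have z1 : ∑ y ∈ univ.filter (fun y => ¬ y ∈ A), ind A y * ind A (y - x) = 0 := by
        refine Finset.sum_eq_zero fun y hy => ?_
        unfold ind
        rw [if_neg (Finset.mem_filter.mp hy).2, zero_mul]
      have z2 : univ.filter (fun y => y ∈ A) = A := by ext y; simp
      rw [z1, add_zero, z2]
      refine Finset.sum_congr rfl fun y hy => ?_
      have : ind A y = 1 := by unfold ind; rw [if_pos hy]
      rw [this, one_mul]
    rw [e1, e2]
    refine Finset.sum_equiv (Equiv.addLeft x) (by simp) ?_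
    intro y _
    simp only [Equiv.coe_addLeft, add_sub_cancel_left]
    ring
  rw [schur_eq_sum, Finset.sum_congr rfl h1, Finset.sum_comm]
  refine Finset.sum_congr rfl fun z _ => ?_
  rw [Finset.card_filter]
  push_cast
  refine Finset.sum_congr rfl fun x _ => ?_
  unfold ind
  rfl

lemma o3_lev_sum {m : ℕ} [NeZero m] (φ : G →+ ZMod m) (A : Finset G) (f : ZMod m → ℤ) :
    ∑ x ∈ A, f (φ x) = ∑ j, (lv φ A j : ℤ) * f j := by
  rw [← Finset.sum_fiberwise_of_maps_to (s := A) (t := univ) (g := φ) (fun _ _ => mem_univ _)]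
  refine Finset.sum_congr rfl fun j _ => ?_
  have h3 : ∀ x ∈ A.filter (fun x => φ x = j), f (φ x) = f j := by
    intro x hx
    rw [(Finset.mem_filter.mp hx).2]
  rw [Finset.sum_congr rfl h3, Finset.sum_const, nsmul_eq_mul]
  rfl

lemma o3_lev_sumR {m : ℕ} [NeZero m] (φ : G →+ ZMod m) (A : Finset G) (f : ZMod m → ℝ) :
    ∑ x ∈ A, f (φ x) = ∑ j, (lv φ A j : ℝ) * f j := by
  rw [← Finset.sum_fiberwise_of_maps_to (s := A) (t := univ) (g := φ) (fun _ _ => mem_univ _)]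
  refine Finset.sum_congr rfl fun j _ => ?_
  have h3 : ∀ x ∈ A.filter (fun x => φ x = j), f (φ x) = f j := by
    intro x hx
    rw [(Finset.mem_filter.mp hx).2]
  rw [Finset.sum_congr rfl h3, Finset.sum_const, nsmul_eq_mul]
  rfl

/-- Schur triples by levels, sums -/
lemma o3_lv_plus {m : ℕ} [NeZero m] (φ : G →+ ZMod m) (hφ : Function.Surjective φ)
    (A : Finset G) :
    ∑ i, (lv φ A i : ℤ) * ∑ j, max 0 ((lv φ A j : ℤ) + lv φ A (i - j) - Nat.card φ.ker) ≤
      (schur A : ℤ) := by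
  rw [o3_schur_sum, ← o3_lev_sum φ A
    (fun i => ∑ j, max 0 ((lv φ A j : ℤ) + lv φ A (i - j) - Nat.card φ.ker))]
  exact Finset.sum_le_sum fun z _ => lev_plus φ hφ A z

/-- Schur triples by levels, differences -/
lemma o3_lv_minus {m : ℕ} [NeZero m] (φ : G →+ ZMod m) (hφ : Function.Surjective φ)
    (A : Finset G) :
    ∑ i, (lv φ A i : ℤ) * ∑ j, max 0 ((lv φ A j : ℤ) + lv φ A (j + i) - Nat.card φ.ker) ≤
      (schur A : ℤ) := by
  rw [o3_schur_diff, ← o3_lev_sum φ A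
    (fun i => ∑ j, max 0 ((lv φ A j : ℤ) + lv φ A (j + i) - Nat.card φ.ker))]
  exact Finset.sum_le_sum fun z _ => lev_minus φ hφ A z

lemma o3_v (f : ZMod 3 → ℤ) : ∑ j, f j = f 0 + f 1 + f 2 := Fin.sum_univ_three f

lemma o3_vR (f : ZMod 3 → ℝ) : ∑ j, f j = f 0 + f 1 + f 2 := Fin.sum_univ_three f

/-- the transform at a character of order `3` -/
lemma o3_hat {χ : AddChar G ℂ} {φ : G →+ ZMod 3} (h : Std χ φ) (B : Finset G) :
    (hat B χ).re = (lv φ B 0 : ℝ) - ((lv φ B 1 : ℝ) + lv φ B 2) / 2 ∧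
      (hat B χ).im = Real.sqrt 3 / 2 * ((lv φ B 1 : ℝ) - lv φ B 2) := by
  have hc : Real.cos (2 * Real.pi * 1 / 3) = -(1 / 2) := by
    rw [show 2 * Real.pi * 1 / 3 = Real.pi - Real.pi / 3 by ring, Real.cos_pi_sub,
      Real.cos_pi_div_three]
  have hs : Real.sin (2 * Real.pi * 1 / 3) = Real.sqrt 3 / 2 := by
    rw [show 2 * Real.pi * 1 / 3 = Real.pi - Real.pi / 3 by ring, Real.sin_pi_sub,
      Real.sin_pi_div_three]
  have v0 : ((0 : ZMod 3).valMinAbs : ℤ) = 0 := by decide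
  have v1 : ((1 : ZMod 3).valMinAbs : ℤ) = 1 := by decide
  have v2 : ((2 : ZMod 3).valMinAbs : ℤ) = -1 := by decide
  constructor
  · rw [hat_re_eq B h, o3_lev_sumR φ B (fun i => Real.cos (2 * Real.pi * i.valMinAbs / (3 : ℕ))),
      o3_vR, v0, v1, v2]
    push_cast
    rw [show 2 * Real.pi * -1 / 3 = -(2 * Real.pi * 1 / 3) by ring, Real.cos_neg, hc,
      show 2 * Real.pi * 0 / 3 = 0 by ring, Real.cos_zero]
    ring
  · rw [hat_im_eq B h, o3_lev_sumR φ B (fun i => Real.sin (2 * Real.pi * i.valMinAbs / (3 : ℕ))),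
      o3_vR, v0, v1, v2]
    push_cast
    rw [show 2 * Real.pi * -1 / 3 = -(2 * Real.pi * 1 / 3) by ring, Real.sin_neg, hs,
      show 2 * Real.pi * 0 / 3 = 0 by ring, Real.sin_zero]
    ring

lemma o3_compl {m : ℕ} [NeZero m] (φ : G →+ ZMod m) (hφ : Function.Surjective φ) (B : Finset G)
    (j : ZMod m) : (lv φ B j : ℤ) + lv φ Bᶜ j = Nat.card φ.ker := by
  have h1 := fibre_card φ hφ j
  rw [← h1]
  have h2 : (univ.filter (fun x => φ x = j)).card =
      (B.filter (fun x => φ x = j)).card + (Bᶜ.filter (fun x => φ x = j)).card := by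
    rw [← Finset.card_union_of_disjoint]
    · congr 1
      ext x
      simp only [Finset.mem_filter, Finset.mem_union, Finset.mem_univ, true_and,
        Finset.mem_compl]
      tauto
    · rw [Finset.disjoint_left]
      intro x hx hx'
      rw [Finset.mem_filter] at hx hx'
      exact (Finset.mem_compl.mp hx'.1) hx.1
  unfold lv
  rw [h2]
  push_cast
  ring

/-- the four lower bounds -/
lemma o3_int {x0 x1 x2 L t N : ℤ} (p0 : 0 ≤ x0) (p1 : 0 ≤ x1) (p2 : 0 ≤ x2)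
    (ht : t = x0 + x1 + x2 - L) (ht0 : 0 < t) (hL : 0 < L)
    (s1 : x0 * (max 0 (x0 + x0 - L) + max 0 (x1 + x2 - L) + max 0 (x2 + x1 - L)) +
      x1 * (max 0 (x0 + x1 - L) + max 0 (x1 + x0 - L) + max 0 (x2 + x2 - L)) +
      x2 * (max 0 (x0 + x2 - L) + max 0 (x1 + x1 - L) + max 0 (x2 + x0 - L)) ≤ N)
    (s2 : x0 * (max 0 (x0 + x0 - L) + max 0 (x1 + x1 - L) + max 0 (x2 + x2 - L)) +
      x1 * (max 0 (x0 + x1 - L) + max 0 (x1 + x2 - L) + max 0 (x2 + x0 - L)) +
      x2 * (max 0 (x0 + x2 - L) + max 0 (x1 + x0 - L) + max 0 (x2 + x1 - L)) ≤ N) :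
    x0 * (2 * x0 - L) ≤ N ∧ (2 * x1 - L) * t ≤ N ∧ (2 * x2 - L) * t ≤ N ∧
      (x1 + x2) * (x1 + x2 - L) ≤ N := by
  have mx0 : ∀ a : ℤ, 0 ≤ max 0 a := fun a => le_max_left _ _
  have mxa : ∀ a : ℤ, a ≤ max 0 a := fun a => le_max_right _ _
  have e1 := mul_le_mul_of_nonneg_left (mxa (x0 + x0 - L)) p0
  have e2 := mul_nonneg p0 (mx0 (x1 + x2 - L))
  have e3 := mul_nonneg p0 (mx0 (x2 + x1 - L))
  have e4 := mul_nonneg p1 (mx0 (x0 + x1 - L))
  have e5 := mul_nonneg p1 (mx0 (x1 + x0 - L))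
  have e6 := mul_nonneg p1 (mx0 (x2 + x2 - L))
  have e7 := mul_nonneg p2 (mx0 (x0 + x2 - L))
  have e8 := mul_nonneg p2 (mx0 (x1 + x1 - L))
  have e9 := mul_nonneg p2 (mx0 (x2 + x0 - L))
  have e10 := mul_nonneg p0 (mx0 (x0 + x0 - L))
  have N2 : ∀ y1 y2 : ℤ, 0 ≤ y1 → 0 ≤ y2 → x0 + y1 + y2 = L + t →
      y1 * (max 0 (x0 + y1 - L) + max 0 (y1 + x0 - L)) + y2 * max 0 (y1 + y1 - L) ≤ N →
      (2 * y1 - L) * t ≤ N := by
    intro y1 y2 g1 g2 gs gN
    by_cases hy : 2 * y1 ≤ L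
    · have h5 : (2 * y1 - L) * t ≤ 0 := mul_nonpos_of_nonpos_of_nonneg (by linarith) ht0.le
      have h6 : (0 : ℤ) ≤ y1 * (max 0 (x0 + y1 - L) + max 0 (y1 + x0 - L)) +
          y2 * max 0 (y1 + y1 - L) :=
        add_nonneg (mul_nonneg g1 (add_nonneg (mx0 _) (mx0 _))) (mul_nonneg g2 (mx0 _))
      linarith only [h5, h6, gN]
    · rw [not_le] at hy
      refine le_trans ?_ gN
      have h1 : y2 * (y1 + y1 - L) ≤ y2 * max 0 (y1 + y1 - L) :=
        mul_le_mul_of_nonneg_left (mxa _) g2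
      rw [add_comm y1 x0]
      have ht' : t = x0 + y1 + y2 - L := by linarith only [gs]
      rcases le_total (x0 + y1) L with h | h
      · have h2 : max 0 (x0 + y1 - L) = 0 := max_eq_left (by linarith only [h])
        rw [h2]
        have h3 : 0 ≤ (L - (x0 + y1)) * (2 * y1 - L) :=
          mul_nonneg (by linarith only [h]) (by linarith only [hy])
        rw [ht']
        linarith only [h1, h3]
      · have h2 : max 0 (x0 + y1 - L) = x0 + y1 - L := max_eq_right (by linarith only [h])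
        rw [h2]
        have h3 := mul_nonneg (show 0 ≤ x0 + y1 - L by linarith only [h]) hL.le
        rw [ht']
        linarith only [h1, h3]
  refine ⟨?_, ?_, ?_, ?_⟩
  · linarith only [s1, e1, e2, e3, e4, e5, e6, e7, e8, e9]
  · apply N2 x1 x2 p1 p2 (by linarith only [ht])
    linarith only [s1, e10, e2, e3, e6, e7, e9]
  · apply N2 x2 x1 p2 p1 (by linarith only [ht])
    linarith only [s1, e10, e2, e3, e4, e5, e8]
  · have f1 := mul_nonneg p0 (mx0 (x1 + x1 - L))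
    have f2 := mul_nonneg p0 (mx0 (x2 + x2 - L))
    have f3 := mul_le_mul_of_nonneg_left (mxa (x1 + x2 - L)) p1
    have f4 := mul_le_mul_of_nonneg_left (mxa (x2 + x1 - L)) p2
    have f5 := mul_nonneg p1 (mx0 (x2 + x0 - L))
    have f6 := mul_nonneg p2 (mx0 (x1 + x0 - L))
    linarith only [s2, e10, f1, f2, f3, f4, e4, f5, e7, f6]

/-- the real form of the hypotheses -/
lemma o3_conv {n b L t F re im x0 x1 x2 : ℝ} (hn : n = 3 * L) (hb : b = 2 * L - t)
    (hre : re = (L - x0) - ((L - x1) + (L - x2)) / 2)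
    (him : im = Real.sqrt 3 / 2 * ((L - x1) - (L - x2)))
    (hF : (100 * b ≤ 66 * n ∧ -182 * n ^ 2 ≤ 100000 * F) ∨
      (65 * n ≤ 100 * b ∧ -(4 * n * (2 * n - 3 * b)) ≤ 63 * F))
    (hv : 27 / 100 * n ^ 2 ≤ 9 * re ^ 2 + im ^ 2) :
    2.43 * L ^ 2 ≤ 9 / 4 * (2 * x0 - x1 - x2) ^ 2 + 3 / 4 * (x1 - x2) ^ 2 ∧
      ((0.02 * L ≤ t ∧ -0.01638 * L ^ 2 ≤ F) ∨ (t ≤ 0.05 * L ∧ -(4 / 7) * (L * t) ≤ F)) := by
  constructor
  · have h3 : im ^ 2 = 3 / 4 * (x1 - x2) ^ 2 := by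
      have h4 : Real.sqrt 3 ^ 2 = 3 := Real.sq_sqrt (by norm_num)
      calc im ^ 2 = Real.sqrt 3 ^ 2 / 4 * (x1 - x2) ^ 2 := by
            rw [him]
            ring
        _ = _ := by rw [h4]
    rw [hre, h3, hn] at hv
    linarith only [hv]
  · rw [hn, hb] at hF
    rcases hF with ⟨h1, h2⟩ | ⟨h1, h2⟩
    · left
      exact ⟨by linarith only [h1], by linarith only [h2]⟩
    · right
      exact ⟨by linarith only [h1], by linarith only [h2]⟩

/-- **order 3 is impossible** -/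
theorem no_three {χ : AddChar G ℂ} {φ : G →+ ZMod 3} (hstd : Std χ φ)
    (hφ : Function.Surjective φ) (B : Finset G)
    (hb1 : 6181 * Fintype.card G ≤ 10000 * B.card) (hb2 : 3 * B.card < 2 * Fintype.card G)
    (hF : (100 * B.card ≤ 66 * Fintype.card G ∧
        -182 * (Fintype.card G : ℤ) ^ 2 ≤ 100000 * GL.FF B) ∨
      (65 * Fintype.card G ≤ 100 * B.card ∧
        -4 * (Fintype.card G : ℤ) * (2 * Fintype.card G - 3 * B.card) ≤ 63 * GL.FF B))
    (hv : 27 / 100 * (Fintype.card G : ℝ) ^ 2 ≤ 9 * (hat B χ).re ^ 2 + (hat B χ).im ^ 2) :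
    False := by
  obtain ⟨L, hLd⟩ : ∃ L : ℤ, L = Nat.card φ.ker := ⟨_, rfl⟩
  have c0 := o3_compl φ hφ B 0
  have c1 := o3_compl φ hφ B 1
  have c2 := o3_compl φ hφ B 2
  rw [← hLd] at c0 c1 c2
  -- the cardinalities
  have hcard : ∀ A : Finset G, (A.card : ℤ) = lv φ A 0 + lv φ A 1 + lv φ A 2 := by
    intro A
    have h1 := o3_lev_sum φ A (fun _ => 1)
    rw [o3_v] at h1
    simp only [Finset.sum_const, nsmul_eq_mul, mul_one] at h1
    exact h1
  have hB := hcard B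
  have hA := hcard Bᶜ
  have hcompl : ((Bᶜ : Finset G).card : ℤ) = Fintype.card G - B.card := by
    rw [Finset.card_compl, Nat.cast_sub (Finset.card_le_univ B)]
  have hn : (Fintype.card G : ℤ) = 3 * L := by linarith
  -- the counts
  have s1 := o3_lv_plus φ hφ Bᶜ
  have s2 := o3_lv_minus φ hφ Bᶜ
  have s3 := four_schur_compl B
  rw [← hLd] at s1 s2
  obtain ⟨x0, hx0⟩ : ∃ x : ℤ, x = lv φ Bᶜ 0 := ⟨_, rfl⟩
  obtain ⟨x1, hx1⟩ : ∃ x : ℤ, x = lv φ Bᶜ 1 := ⟨_, rfl⟩
  obtain ⟨x2, hx2⟩ : ∃ x : ℤ, x = lv φ Bᶜ 2 := ⟨_, rfl⟩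
  have p0 : 0 ≤ x0 := by rw [hx0]; positivity
  have p1 : 0 ≤ x1 := by rw [hx1]; positivity
  have p2 : 0 ≤ x2 := by rw [hx2]; positivity
  simp only [o3_v] at s1 s2
  have z1 : (0 : ZMod 3) - 0 = 0 := by decide
  have z2 : (0 : ZMod 3) - 1 = 2 := by decide
  have z3 : (0 : ZMod 3) - 2 = 1 := by decide
  have z4 : (1 : ZMod 3) - 0 = 1 := by decide
  have z5 : (1 : ZMod 3) - 1 = 0 := by decide
  have z6 : (1 : ZMod 3) - 2 = 2 := by decide
  have z7 : (2 : ZMod 3) - 0 = 2 := by decide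
  have z8 : (2 : ZMod 3) - 1 = 1 := by decide
  have z9 : (2 : ZMod 3) - 2 = 0 := by decide
  have w1 : (0 : ZMod 3) + 0 = 0 := by decide
  have w2 : (1 : ZMod 3) + 0 = 1 := by decide
  have w3 : (2 : ZMod 3) + 0 = 2 := by decide
  have w4 : (0 : ZMod 3) + 1 = 1 := by decide
  have w5 : (1 : ZMod 3) + 1 = 2 := by decide
  have w6 : (2 : ZMod 3) + 1 = 0 := by decide
  have w7 : (0 : ZMod 3) + 2 = 2 := by decide
  have w8 : (1 : ZMod 3) + 2 = 0 := by decide
  have w9 : (2 : ZMod 3) + 2 = 1 := by decide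
  rw [z1, z2, z3, z4, z5, z6, z7, z8, z9, ← hx0, ← hx1, ← hx2] at s1
  rw [w1, w2, w3, w4, w5, w6, w7, w8, w9, ← hx0, ← hx1, ← hx2] at s2
  rw [← hx0, ← hx1, ← hx2] at hA
  rw [← hx0] at c0
  rw [← hx1] at c1
  rw [← hx2] at c2
  obtain ⟨N, hN⟩ : ∃ N : ℤ, N = schur Bᶜ := ⟨_, rfl⟩
  rw [← hN] at s1 s2 s3
  obtain ⟨t, ht⟩ : ∃ t : ℤ, t = x0 + x1 + x2 - L := ⟨_, rfl⟩
  have ht0 : 0 < t := by omega
  have ht1 : 10000 * t ≤ 1457 * L := by omega
  have hLpos : 0 < L := by omega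
  obtain ⟨N1, N2a, N2b, N3⟩ := o3_int p0 p1 p2 ht ht0 hLpos s1 s2
  -- the transform
  obtain ⟨hre, him⟩ := o3_hat hstd B
  have r0 : (lv φ B 0 : ℝ) = L - x0 := by
    have : (lv φ B 0 : ℤ) = L - x0 := by linarith
    exact_mod_cast this
  have r1 : (lv φ B 1 : ℝ) = L - x1 := by
    have : (lv φ B 1 : ℤ) = L - x1 := by linarith
    exact_mod_cast this
  have r2 : (lv φ B 2 : ℝ) = L - x2 := by
    have : (lv φ B 2 : ℤ) = L - x2 := by linarith
    exact_mod_cast this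
  have hnR : (Fintype.card G : ℝ) = 3 * L := by exact_mod_cast hn
  have hbR : (B.card : ℝ) = 2 * L - t := by
    have : (B.card : ℤ) = 2 * L - t := by linarith
    exact_mod_cast this
  have hLr : (0 : ℝ) < L := by exact_mod_cast hLpos
  have htr : (0 : ℝ) < t := by exact_mod_cast ht0
  have ht1r : 10000 * (t : ℝ) ≤ 1457 * L := by exact_mod_cast ht1
  have hF' : (100 * (B.card : ℝ) ≤ 66 * (Fintype.card G : ℝ) ∧
        -182 * (Fintype.card G : ℝ) ^ 2 ≤ 100000 * (GL.FF B : ℝ)) ∨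
      (65 * (Fintype.card G : ℝ) ≤ 100 * (B.card : ℝ) ∧
        -(4 * (Fintype.card G : ℝ) * (2 * Fintype.card G - 3 * B.card)) ≤
          63 * (GL.FF B : ℝ)) := by
    rcases hF with ⟨h1, h2⟩ | ⟨h1, h2⟩
    · exact Or.inl ⟨by exact_mod_cast h1, by exact_mod_cast h2⟩
    · refine Or.inr ⟨by exact_mod_cast h1, ?_⟩
      have h3 : -(4 * (Fintype.card G : ℤ) * (2 * Fintype.card G - 3 * B.card)) ≤
          63 * GL.FF B := by linarith only [h2]
      exact_mod_cast h3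
  obtain ⟨hQ, hFR⟩ := o3_conv (x0 := x0) (x1 := x1) (x2 := x2) hnR hbR
    (by rw [hre, r0, r1, r2]) (by rw [him, r1, r2]) hF' hv
  have hN4 : 4 * (N : ℝ) = (3 * (t : ℝ)) ^ 2 - (GL.FF B : ℝ) := by
    have h1 : 4 * N = (3 * t) ^ 2 - GL.FF B := by
      rw [s3, hcompl, hn]
      have : (B.card : ℤ) = 2 * L - t := by linarith
      rw [this]
      ring
    exact_mod_cast h1
  exact o3_contra (L := L) (t := t) (x0 := x0) (x1 := x1) (x2 := x2) (N := N)
    (F := (GL.FF B : ℝ)) hLr htr (by linarith)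
    (by exact_mod_cast p0) (by exact_mod_cast p1) (by exact_mod_cast p2)
    (by rw [show (t : ℝ) = x0 + x1 + x2 - L by exact_mod_cast ht]; ring)
    (by exact_mod_cast N1) (by exact_mod_cast N2a) (by exact_mod_cast N2b)
    (by exact_mod_cast N3) hQ hN4 hFR

end

end Pool.Agent.SCH
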