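import Mathlib

/-!
# A lower bound for the quantity `V` of the skewness argument
-/

set_option autoImplicit false

namespace Pool.Agent.SCH

/-- the polynomial inequality -/
theorem v27_poly {a b y1 yB z : ℝ} (hz0 : 0 ≤ z) (hz1 : z ≤ 0.0487) (hb : b = 2 / 3 - z)
    (ha : a = 1 / 3 + z) (hy1 : y1 = 0.413888 / 3 + 1.28 * z) (hyB : 0.16445 + 1.6 * z ≤ yB) :
    0.27 * a ^ 3 * (2 * y1 + 3 * a * b) ≤ a * b * yB ^ 2 * (2 * y1 + 3 * a * b) + b ^ 2 * yB ^ 3 +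
      a ^ 2 * (y1 ^ 2 * yB + 3 * a * b * y1 * (2 * yB - y1)) := by
  have ha0 : 0 < a := by linarith
  have hb0 : 0 < b := by linarith
  have hy0 : 0 < y1 := by linarith
  obtain ⟨Y, hY⟩ : ∃ Y : ℝ, Y = 0.16445 + 1.6 * z := ⟨_, rfl⟩
  rw [← hY] at hyB
  have hY0 : 0 ≤ Y := by linarith
  have h2 : Y ^ 2 ≤ yB ^ 2 := pow_le_pow_left₀ hY0 hyB 2
  have h3 : Y ^ 3 ≤ yB ^ 3 := pow_le_pow_left₀ hY0 hyB 3
  have m1 := mul_le_mul_of_nonneg_left h2 (show 0 ≤ a * b * (2 * y1 + 3 * a * b) by positivity)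
  have m2 := mul_le_mul_of_nonneg_left h3 (show 0 ≤ b ^ 2 by positivity)
  have m3 := mul_le_mul_of_nonneg_left hyB
    (show 0 ≤ a ^ 2 * (y1 ^ 2 + 6 * a * b * y1) by positivity)
  have key : 0.27 * a ^ 3 * (2 * y1 + 3 * a * b) ≤
      a * b * Y ^ 2 * (2 * y1 + 3 * a * b) + b ^ 2 * Y ^ 3 +
      a ^ 2 * (y1 ^ 2 * Y + 3 * a * b * y1 * (2 * Y - y1)) := by
    rw [hY, ha, hb, hy1]
    have z2 : 0 ≤ z ^ 2 := by positivity
    have z3 : 0 ≤ z ^ 3 := by positivity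
    have z6 : 0 ≤ z ^ 6 := by positivity
    have z4 : z ^ 4 ≤ 0.0487 * z ^ 3 := by
      have := mul_le_mul_of_nonneg_right hz1 z3
      calc z ^ 4 = z * z ^ 3 := by ring
        _ ≤ _ := this
    have z5 : z ^ 5 ≤ 0.0487 * z ^ 4 := by
      have := mul_le_mul_of_nonneg_right hz1 (show 0 ≤ z ^ 4 by positivity)
      calc z ^ 5 = z * z ^ 4 := by ring
        _ ≤ _ := this
    linarith only [hz0, z2, z3, z4, z5, z6]
  linarith only [m1, m2, m3, key]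

theorem v27_gen {b F a yB yA y1 y2 ρ V : ℝ} (hb1 : 6.8 / 11 ≤ b) (hb2 : b ≤ 2 / 3)
    (hF : -0.00182 ≤ F) (ha : a = 1 - b) (hyB : yB = 3 * (F + 3 * b ^ 2) / (4 * b) - 3 * b ^ 2)
    (hyA : yA = -(b * yB / a)) (hy2 : y2 = 3 * a * b) (hy1 : y1 = 0.2 - 1.28 * (b - 0.6182))
    (hρ : ρ = 1 / (2 * y1 + y2))
    (hV : V = a * (yA ^ 2 - ρ * yA ^ 3) + b * (y1 ^ 2 - ρ * y1 ^ 3 +
      (2 * y1 - 3 * ρ * y1 ^ 2) * (yB - y1))) : 27 / 100 * (a * b) ≤ V := by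
  obtain ⟨z, hz⟩ : ∃ z : ℝ, z = 2 / 3 - b := ⟨_, rfl⟩
  have hz0 : 0 ≤ z := by linarith
  have hz1 : z ≤ 0.0487 := by
    rw [hz]
    norm_num at hb1 ⊢
    linarith
  have hb : b = 2 / 3 - z := by linarith
  have ha' : a = 1 / 3 + z := by linarith
  have hb0 : 0 < b := by linarith
  have ha0 : 0 < a := by linarith
  have hy1' : y1 = 0.413888 / 3 + 1.28 * z := by
    rw [hy1, hb]
    norm_num
    ring
  have hy0 : 0 < y1 := by linarith
  have hyBl : 0.16445 + 1.6 * z ≤ yB := by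
    have e1 : yB = 9 / 4 * b - 3 * b ^ 2 + 3 / 4 * (F / b) := by
      rw [hyB]
      field_simp
      ring
    have e2 : -0.002946 ≤ F / b := by
      rw [le_div_iff₀ hb0]
      norm_num at hb1 hF ⊢
      linarith
    have e3 : 0.16666 + 1.75 * z - 3 * z ^ 2 ≤ 9 / 4 * b - 3 * b ^ 2 := by
      rw [hb]
      norm_num
      nlinarith
    have e4 : z ^ 2 ≤ 0.0487 * z := by
      rw [sq]
      exact mul_le_mul_of_nonneg_right hz1 hz0
    rw [e1]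
    linarith
  have hD : 0 < 2 * y1 + 3 * a * b := by positivity
  have key := v27_poly hz0 hz1 hb ha' hy1' hyBl
  have hVe : V - 27 / 100 * (a * b) = b / (a ^ 2 * (2 * y1 + 3 * a * b)) *
      (a * b * yB ^ 2 * (2 * y1 + 3 * a * b) + b ^ 2 * yB ^ 3 +
      a ^ 2 * (y1 ^ 2 * yB + 3 * a * b * y1 * (2 * yB - y1)) -
        0.27 * a ^ 3 * (2 * y1 + 3 * a * b)) := by
    rw [hV, hρ, hy2, hyA]
    field_simp
    ring
  have h1 : 0 ≤ V - 27 / 100 * (a * b) := by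
    rw [hVe]
    apply mul_nonneg (by positivity)
    linarith
  linarith

end Pool.Agent.SCH
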