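import Mathlib
import Pool.Agent.Lib_helper60.SCH.SKR
import Pool.Agent.Lib_helper59.SCH.O3
import Pool.Agent.Lib_helper59.SCH.V27

/-!
# The two statements of `SKR.lean`
-/

set_option autoImplicit false

namespace Pool.Agent.SCH

universe u

theorem o3Stmt : O3Stmt.{u} := by
  intro G _ _ _ χ φ h1 h2 B h3 h4 h5 h6
  exact no_three h1 h2 B h3 h4 h5 h6

theorem v27Stmt : V27Stmt := by
  intro b F a yB yA y1 y2 rho V s h ha hyB hyA hy2 hy1 hrho hV
  rcases h with ⟨h1, h2, -, h4⟩ | ⟨h1, h2, -, h4⟩ | ⟨h1, h2, -, h4⟩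
  · exact v27_gen h1 (by linarith) h4 ha hyB hyA hy2 hy1 hrho hV
  · exact v27_gen (by norm_num at h1 ⊢; linarith) (by linarith) h4 ha hyB hyA hy2 hy1 hrho hV
  · exact v27_gen (by norm_num at h1 ⊢; linarith) h2 (by linarith) ha hyB hyA hy2 hy1 hrho hV

end Pool.Agent.SCH
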